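import Pool.Agent.N176.GW.Stm

set_option autoImplicit false

/-!
# Real bases: the maximal inequality (project GW of helper176, part ITM, helper255)
-/

namespace Pool.Agent.N255.GW

open Finset Filter Topology MeasureTheory
open Pool.Agent.N176.GW (cell S_ITM)

/-- the trivial bound -/
theorem small {α : ℝ} (hα : 0 < α) {t j : ℕ} {lam : ℝ} (hlam : 0 < lam) (h1 : lam ≤ 1)
    {S : Set ℝ} (hS : ∀ β ∈ S, 0 < β ∧ ⌊β * α ^ t⌋₊ = j) :
    volume S ≤ ENNReal.ofReal ((α ^ t)⁻¹ / lam) := by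
  have hp : (0 : ℝ) < α ^ t := by positivity
  calc volume S ≤ volume (Set.Ico ((j : ℝ) / α ^ t) (((j : ℝ) + 1) / α ^ t)) := by
        refine measure_mono fun β hβ => ?_
        obtain ⟨h2, h3⟩ := hS β hβ
        constructor
        · rw [div_le_iff₀ hp, ← h3]
          exact Nat.floor_le (by positivity)
        · rw [lt_div_iff₀ hp, ← h3]
          exact Nat.lt_floor_add_one _
    _ = ENNReal.ofReal ((α ^ t)⁻¹) := by
        rw [Real.volume_Ico]
        congr 1
        field_simp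
        ring
    _ ≤ _ := by
        refine ENNReal.ofReal_le_ofReal ?_
        rw [le_div_iff₀ hlam]
        have : 0 < (α ^ t)⁻¹ := by positivity
        nlinarith



theorem itm (α : ℝ) (hα : 1 < α) : S_ITM α := by
  intro τ w E hτ hw hE hstep k
  have hα0 : 0 < α := by linarith
  induction k generalizing τ w E with
  | zero =>
    intro j hj lam hlam
    rcases le_or_gt lam 1 with h1 | h1
    · exact small hα0 hlam h1 (fun β hβ => ⟨hβ.1, hβ.2.2.1⟩)
    · refine le_trans (le_of_eq ?_) bot_le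
      rw [show {β : ℝ | 0 < β ∧ β ≤ α ^ (τ 0) ∧ ⌊β * α ^ (τ 0)⌋₊ = j ∧ ∃ i ≤ 0,
        lam * ∏ l ∈ range i, E l ≤
          ∏ l ∈ range i, w l ⌊β * α ^ (τ l)⌋₊ ⌊β * α ^ (τ (l + 1))⌋₊} = ∅ from ?_]
      · simp
      · rw [Set.eq_empty_iff_forall_notMem]
        rintro β ⟨_, _, _, i, hi, h2⟩
        have : i = 0 := by omega
        subst this
        simp only [Finset.range_zero, Finset.prod_empty, mul_one] at h2
        linarith
  | succ k ih =>
    intro j hj lam hlam
    rcases le_or_gt lam 1 with h1 | h1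
    · exact small hα0 hlam h1 (fun β hβ => ⟨hβ.1, hβ.2.2.1⟩)
    set S : Set ℝ := {β : ℝ | 0 < β ∧ β ≤ α ^ (τ 0) ∧ ⌊β * α ^ (τ 0)⌋₊ = j ∧ ∃ i ≤ k + 1,
        lam * ∏ l ∈ range i, E l ≤
          ∏ l ∈ range i, w l ⌊β * α ^ (τ l)⌋₊ ⌊β * α ^ (τ (l + 1))⌋₊} with hS
    rcases S.eq_empty_or_nonempty with hSe | ⟨β₀, hβ₀⟩
    · rw [hSe]; simp
    have h01 : τ 0 ≤ τ 1 := hτ (by omega)
    have hp0 : (0 : ℝ) < α ^ (τ 0) := by positivity
    have hp1 : (0 : ℝ) < α ^ (τ 1) := by positivity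
    have hpd : (0 : ℝ) < α ^ (τ 1 - τ 0) := by positivity
    have hpd1 : (1 : ℝ) ≤ α ^ (τ 1 - τ 0) := one_le_pow₀ hα.le
    have hpe : α ^ (τ 1) = α ^ (τ 0) * α ^ (τ 1 - τ 0) := by
      rw [← pow_add]; congr 1; omega
    have hj2 : (j : ℝ) ≤ α ^ (2 * τ 0) := by
      obtain ⟨h2, h3, h4, _⟩ := hβ₀
      have h5 : (j : ℝ) ≤ β₀ * α ^ (τ 0) := by
        rw [← h4]; exact Nat.floor_le (by positivity)
      calc (j : ℝ) ≤ β₀ * α ^ (τ 0) := h5
        _ ≤ α ^ (τ 0) * α ^ (τ 0) := mul_le_mul_of_nonneg_right h3 hp0.le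
        _ = α ^ (2 * τ 0) := by rw [two_mul, pow_add]
    -- the pieces
    have hcov : S ⊆ ⋃ n ∈ cell α (τ 0) (τ 1) j, (S ∩ {β : ℝ | ⌊β * α ^ (τ 1)⌋₊ = n}) := by
      intro β hβ
      rw [Set.mem_iUnion₂]
      refine ⟨⌊β * α ^ (τ 1)⌋₊, ?_, hβ, rfl⟩
      obtain ⟨h2, h3, h4, _⟩ := hβ
      have h5 : (j : ℝ) ≤ β * α ^ (τ 0) := by
        rw [← h4]; exact Nat.floor_le (by positivity)
      have h6 : β * α ^ (τ 0) < (j : ℝ) + 1 := by
        rw [← h4]; exact Nat.lt_floor_add_one _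
      have h7 : β * α ^ (τ 1) = β * α ^ (τ 0) * α ^ (τ 1 - τ 0) := by rw [hpe]; ring
      unfold cell
      rw [mem_Ico]
      refine ⟨Nat.floor_le_floor ?_, ?_⟩
      · rw [h7]
        exact mul_le_mul_of_nonneg_right h5 hpd.le
      · rw [Nat.lt_ceil]
        calc ((⌊β * α ^ (τ 1)⌋₊ : ℕ) : ℝ) ≤ β * α ^ (τ 1) := Nat.floor_le (by positivity)
          _ < _ := by
            rw [h7]
            exact mul_lt_mul_of_pos_right h6 hpd
    have hpiece : ∀ n ∈ cell α (τ 0) (τ 1) j, volume (S ∩ {β : ℝ | ⌊β * α ^ (τ 1)⌋₊ = n}) ≤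
        ENNReal.ofReal ((α ^ (τ 1))⁻¹ / (lam * E 0) * w 0 j n) := by
      intro n hn
      have hn1 : 1 ≤ n := by
        unfold cell at hn
        rw [mem_Ico] at hn
        refine le_trans ?_ hn.1
        rw [Nat.le_floor_iff (by positivity)]
        have : (1 : ℝ) ≤ j := by exact_mod_cast hj
        push_cast
        nlinarith
      have hrew : ∀ β ∈ S ∩ {β : ℝ | ⌊β * α ^ (τ 1)⌋₊ = n}, ∃ i ≤ k,
          lam * (E 0 * ∏ l ∈ range i, E (l + 1)) ≤
            w 0 j n * ∏ l ∈ range i,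
              w (l + 1) ⌊β * α ^ (τ (l + 1))⌋₊ ⌊β * α ^ (τ (l + 1 + 1))⌋₊ := by
        rintro β ⟨⟨h2, h3, h4, i, hi, h5⟩, h6⟩
        rcases Nat.eq_zero_or_pos i with h7 | h7
        · subst h7
          simp only [Finset.range_zero, Finset.prod_empty, mul_one] at h5
          linarith
        · obtain ⟨i', rfl⟩ : ∃ i', i = i' + 1 := ⟨i - 1, by omega⟩
          refine ⟨i', by omega, ?_⟩
          rw [Finset.prod_range_succ', Finset.prod_range_succ'] at h5
          have h8 : ⌊β * α ^ (τ (0 + 1))⌋₊ = n := h6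
          rw [h8, h4] at h5
          calc lam * (E 0 * ∏ l ∈ range i', E (l + 1)) =
              lam * ((∏ l ∈ range i', E (l + 1)) * E 0) := by ring
            _ ≤ _ := h5
            _ = _ := by ring
      rcases (hw 0 j n).eq_or_lt with hw0 | hw0
      · have he : S ∩ {β : ℝ | ⌊β * α ^ (τ 1)⌋₊ = n} = ∅ := by
          rw [Set.eq_empty_iff_forall_notMem]
          intro β hβ
          obtain ⟨i, _, h3⟩ := hrew β hβ
          rw [← hw0, zero_mul] at h3
          have h4 : 0 < ∏ l ∈ range i, E (l + 1) := Finset.prod_pos fun l _ => hE _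
          have := mul_pos hlam (mul_pos (hE 0) h4)
          linarith
        rw [he]
        simp
      · set lam' := lam * E 0 / w 0 j n with hlam'
        have hlam'0 : 0 < lam' := by
          have := hE 0
          positivity
        have hih := ih (fun l => τ (l + 1)) (fun l => w (l + 1)) (fun l => E (l + 1))
          (fun a c hac => hτ (by omega)) (fun l m n => hw _ _ _) (fun l => hE _)
          (fun l m h3 h4 => hstep (l + 1) m h3 h4) n hn1 lam' hlam'0
        refine le_trans (measure_mono ?_) (hih.trans (le_of_eq ?_))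
        · intro β hβ
          obtain ⟨i, hi, h3⟩ := hrew β hβ
          obtain ⟨⟨h4, h5, h6, _⟩, h7⟩ := hβ
          refine ⟨h4, ?_, h7, i, hi, ?_⟩
          · show β ≤ α ^ (τ (0 + 1))
            calc β ≤ α ^ (τ 0) := h5
              _ ≤ α ^ (τ (0 + 1)) := pow_le_pow_right₀ hα.le h01
          · rw [hlam', div_mul_eq_mul_div, div_le_iff₀ hw0]
            linarith
        · congr 1
          show (α ^ (τ (0 + 1)))⁻¹ / lam' = _
          rw [hlam', zero_add]
          have := hE 0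
          field_simp
    have hE0 := hE 0
    have h2 := hstep 0 j hj hj2
    rw [zero_add] at h2
    calc volume S ≤ volume (⋃ n ∈ cell α (τ 0) (τ 1) j, (S ∩ {β : ℝ | ⌊β * α ^ (τ 1)⌋₊ = n})) :=
          measure_mono hcov
      _ ≤ ∑ n ∈ cell α (τ 0) (τ 1) j, volume (S ∩ {β : ℝ | ⌊β * α ^ (τ 1)⌋₊ = n}) :=
          measure_biUnion_finset_le _ _
      _ ≤ ∑ n ∈ cell α (τ 0) (τ 1) j, ENNReal.ofReal ((α ^ (τ 1))⁻¹ / (lam * E 0) * w 0 j n) :=
          Finset.sum_le_sum hpiece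
      _ = ENNReal.ofReal (∑ n ∈ cell α (τ 0) (τ 1) j, (α ^ (τ 1))⁻¹ / (lam * E 0) * w 0 j n) := by
          rw [ENNReal.ofReal_sum_of_nonneg]
          intro n _
          have := hw 0 j n
          positivity
      _ ≤ ENNReal.ofReal ((α ^ (τ 0))⁻¹ / lam) := by
          refine ENNReal.ofReal_le_ofReal ?_
          rw [← Finset.mul_sum]
          calc (α ^ (τ 1))⁻¹ / (lam * E 0) * ∑ n ∈ cell α (τ 0) (τ 1) j, w 0 j n ≤
                (α ^ (τ 1))⁻¹ / (lam * E 0) * (E 0 * α ^ (τ 1 - τ 0)) :=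
                mul_le_mul_of_nonneg_left h2 (by positivity)
            _ = (α ^ (τ 0))⁻¹ / lam := by
                rw [hpe]
                field_simp

end Pool.Agent.N255.GW
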